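import Mathlib

/-!
Uniform convergence of the ergodic averages in uniquely ergodic systems.
-/

set_option autoImplicit false

open MeasureTheory Filter Topology Set
open scoped ENNReal BoundedContinuousFunction

namespace Pool.Agent.R202.WI

variable {X : Type*} [MetricSpace X] [CompactSpace X] [MeasurableSpace X] [BorelSpace X]

/-- empirical measures -/
noncomputable def emp (y : ℕ → X) (N : ℕ) : Measure X :=
  ((N : ℝ≥0∞))⁻¹ • ∑ i ∈ Finset.range N, Measure.dirac (y i)

omit [MetricSpace X] [CompactSpace X] [BorelSpace X] in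
lemma emp_prob (y : ℕ → X) {N : ℕ} (hN : 0 < N) : IsProbabilityMeasure (emp y N) := by
  constructor
  rw [emp, Measure.smul_apply, Measure.finsetSum_apply]
  simp only [measure_univ, Finset.sum_const, Finset.card_range, nsmul_eq_mul, mul_one, smul_eq_mul]
  exact ENNReal.inv_mul_cancel (by exact_mod_cast hN.ne') (ENNReal.natCast_ne_top N)

lemma emp_integral (y : ℕ → X) {N : ℕ} {G : X → ℝ} :
    ∫ z, G z ∂(emp y N) = (N : ℝ)⁻¹ * ∑ i ∈ Finset.range N, G (y i) := by
  rw [emp, integral_smul_measure, integral_finsetSum_measure]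
  · simp only [integral_dirac, smul_eq_mul, ENNReal.toReal_inv, ENNReal.toReal_natCast]
  · intro i _
    exact integrable_dirac (by exact enorm_lt_top)

theorem uniform {T : X → X} (hT : Continuous T) (ν : Measure X)
    (huniq : ∀ μ : Measure X, IsProbabilityMeasure μ → MeasurePreserving T μ μ → μ = ν)
    (x : X) {G : X → ℝ} (hG : Continuous G) {ε : ℝ} (hε : 0 < ε) :
    ∃ N₀ : ℕ, ∀ N, N₀ ≤ N → ∀ a : ℕ,
      |∑ i ∈ Finset.range N, G (T^[a + i] x) - N * ∫ y, G y ∂ν| ≤ ε * N := by
  by_contra hcon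
  push Not at hcon
  choose N hN a ha using hcon
  -- the empirical measures
  have hN1 : ∀ j, 0 < N (j + 1) := fun j => by
    have := hN (j + 1)
    omega
  set M : ℕ → ProbabilityMeasure X := fun j =>
    ⟨emp (fun i => T^[a (j + 1) + i] x) (N (j + 1)), emp_prob _ (hN1 j)⟩ with hM
  obtain ⟨μ', hμ'⟩ : ∃ μ' : ProbabilityMeasure X, Tendsto M (hyperfilter ℕ : Filter ℕ) (𝓝 μ') :=
    ⟨_, Ultrafilter.le_nhds_lim ((hyperfilter ℕ).map M)⟩
  rw [ProbabilityMeasure.tendsto_iff_forall_integral_tendsto] at hμ'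
  have hle : (hyperfilter ℕ : Filter ℕ) ≤ atTop := by
    rw [← Nat.cofinite_eq_atTop]
    exact hyperfilter_le_cofinite
  have hint : ∀ (j : ℕ) (f : X → ℝ), Continuous f → ∫ z, f z ∂(M j : Measure X) =
      (N (j + 1) : ℝ)⁻¹ * ∑ i ∈ Finset.range (N (j + 1)), f (T^[a (j + 1) + i] x) := by
    intro j f _
    exact emp_integral _
  have hNlim : Tendsto (fun j => (N (j + 1) : ℝ)⁻¹) atTop (𝓝 0) := by
    have h1 : Tendsto (fun j => N (j + 1)) atTop atTop :=
      tendsto_atTop_mono (fun j => (by have := hN (j + 1); omega : j ≤ N (j + 1))) tendsto_id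
    exact tendsto_inv_atTop_zero.comp (tendsto_natCast_atTop_atTop.comp h1)
  have hpres : MeasurePreserving T (μ' : Measure X) (μ' : Measure X) := by
    refine ⟨hT.measurable, ?_⟩
    have hpm : IsProbabilityMeasure ((μ' : Measure X).map T) :=
      Measure.isProbabilityMeasure_map hT.measurable.aemeasurable
    refine ext_of_forall_integral_eq_of_IsFiniteMeasure fun f => ?_
    rw [integral_map hT.measurable.aemeasurable f.continuous.aestronglyMeasurable]
    have h1 := hμ' f
    have h2 := hμ' (f.compContinuous ⟨T, hT⟩)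
    have h3 := h2.sub h1
    have h4 : Tendsto (fun j => ∫ z, (f.compContinuous ⟨T, hT⟩) z ∂(M j : Measure X) -
        ∫ z, f z ∂(M j : Measure X)) (hyperfilter ℕ : Filter ℕ) (𝓝 0) := by
      refine Tendsto.mono_left ?_ hle
      have hb : ∀ j, ‖∫ z, (f.compContinuous ⟨T, hT⟩) z ∂(M j : Measure X) -
          ∫ z, f z ∂(M j : Measure X)‖ ≤ (N (j + 1) : ℝ)⁻¹ * (2 * ‖f‖) := by
        intro j
        rw [hint j _ (f.compContinuous ⟨T, hT⟩).continuous, hint j _ f.continuous, ← mul_sub]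
        rw [norm_mul, Real.norm_of_nonneg (by positivity)]
        refine mul_le_mul_of_nonneg_left ?_ (by positivity)
        have e1 : ∀ i, (f.compContinuous ⟨T, hT⟩) (T^[a (j + 1) + i] x) = f (T^[a (j + 1) + (i + 1)] x) := by
          intro i
          show f (T (T^[a (j + 1) + i] x)) = _
          rw [← Function.iterate_succ_apply' T]
          rfl
        simp_rw [e1]
        rw [← Finset.sum_sub_distrib, Finset.sum_range_sub (fun i => f (T^[a (j + 1) + i] x))]
        refine (norm_sub_le _ _).trans ?_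
        have := f.norm_coe_le_norm (T^[a (j + 1) + N (j + 1)] x)
        have := f.norm_coe_le_norm (T^[a (j + 1) + 0] x)
        linarith
      refine squeeze_zero_norm hb ?_
      have := hNlim.mul_const (2 * ‖f‖)
      rwa [zero_mul] at this
    have h5 := tendsto_nhds_unique h3 h4
    have h6 : ∫ z, (f.compContinuous ⟨T, hT⟩) z ∂(μ' : Measure X) = ∫ z, f z ∂(μ' : Measure X) :=
      sub_eq_zero.1 h5
    exact h6
  have hμν := huniq (μ' : Measure X) inferInstance hpres
  have hGb := hμ' (BoundedContinuousFunction.mkOfCompact ⟨G, hG⟩)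
  have hGb' : Tendsto (fun j => ∫ z, G z ∂(M j : Measure X)) (hyperfilter ℕ : Filter ℕ)
      (𝓝 (∫ z, G z ∂ν)) := by
    rw [← hμν]
    exact hGb
  have hev := (Metric.tendsto_nhds.1 hGb') ε hε
  obtain ⟨j, hj⟩ := hev.exists
  have h7 := ha (j + 1)
  rw [hint j G hG, Real.dist_eq] at hj
  have hNp : (0 : ℝ) < N (j + 1) := by exact_mod_cast hN1 j
  have h8 : |∑ i ∈ Finset.range (N (j + 1)), G (T^[a (j + 1) + i] x) - N (j + 1) * ∫ y, G y ∂ν| =
      N (j + 1) * |(N (j + 1) : ℝ)⁻¹ * ∑ i ∈ Finset.range (N (j + 1)), G (T^[a (j + 1) + i] x) -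
        ∫ y, G y ∂ν| := by
    have e2 : ∑ i ∈ Finset.range (N (j + 1)), G (T^[a (j + 1) + i] x) - N (j + 1) * ∫ y, G y ∂ν =
        N (j + 1) * ((N (j + 1) : ℝ)⁻¹ * ∑ i ∈ Finset.range (N (j + 1)), G (T^[a (j + 1) + i] x) -
          ∫ y, G y ∂ν) := by
      rw [mul_sub, mul_inv_cancel_left₀ hNp.ne']
    rw [e2, abs_mul, abs_of_pos hNp]
  rw [h8] at h7
  have : (N (j + 1) : ℝ) * |(N (j + 1) : ℝ)⁻¹ * ∑ i ∈ Finset.range (N (j + 1)), G (T^[a (j + 1) + i] x) -
        ∫ y, G y ∂ν| < N (j + 1) * ε := mul_lt_mul_of_pos_left hj hNp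
  linarith

end Pool.Agent.R202.WI
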