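import Mathlib
import Pool.Agent.R202.TM
import Pool.Agent.R202.WI.UE

/-!
In a uniquely ergodic system the values along an orbit are nearly independent of the residues of
the times modulo large primes.
-/

set_option autoImplicit false

open MeasureTheory Filter Topology Set
open scoped ENNReal BoundedContinuousFunction InnerProductSpace

namespace Pool.Agent.R202.WI

open Pool.Agent.R202.TM

section Hilbert

variable {H : Type*} [NormedAddCommGroup H] [InnerProductSpace ℂ H] [CompleteSpace H]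

omit [CompleteSpace H] in
lemma pow_apply' (U : H →L[ℂ] H) (n : ℕ) (x : H) : (U ^ n) x = (⇑U)^[n] x := by
  induction n generalizing x with
  | zero => rfl
  | succ n ih =>
    rw [Function.iterate_succ_apply, ← ih, pow_succ]
    rfl

/-- the projection to the vectors fixed by the `n`-th power -/
noncomputable def pr (U : H →L[ℂ] H) (n : ℕ) (x : H) : H :=
  ((U ^ n).eqLocus (1 : H →L[ℂ] H)).starProjection x

omit [CompleteSpace H] in
lemma pow_norm_le {U : H →L[ℂ] H} (hU : ‖U‖ ≤ 1) (n : ℕ) : ‖U ^ n‖ ≤ 1 := by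
  by_cases hn : n = 0
  · subst hn
    rw [pow_zero]
    exact ContinuousLinearMap.norm_id_le
  · exact (norm_pow_le' U (Nat.pos_of_ne_zero hn)).trans (pow_le_one₀ (norm_nonneg _) hU)

lemma pr_tendsto {U : H →L[ℂ] H} (hU : ‖U‖ ≤ 1) (n : ℕ) (x : H) :
    Tendsto (birkhoffAverage ℂ (⇑(U ^ n)) _root_.id · x) atTop (𝓝 (pr U n x)) :=
  (U ^ n).tendsto_birkhoffAverage_orthogonalProjection (pow_norm_le hU n) x

lemma pr_fix (U : H →L[ℂ] H) (n : ℕ) (x : H) : (U ^ n) (pr U n x) = pr U n x :=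
  Submodule.starProjection_apply_mem ((U ^ n).eqLocus (1 : H →L[ℂ] H)) x

lemma pr_eq {U : H →L[ℂ] H} {n : ℕ} {x : H} (h : (U ^ n) x = x) : pr U n x = x :=
  Submodule.starProjection_eq_self_iff.2 h

lemma pr_sa (U : H →L[ℂ] H) (n : ℕ) (x y : H) : ⟪pr U n x, y⟫_ℂ = ⟪x, pr U n y⟫_ℂ :=
  Submodule.inner_starProjection_left_eq_right _ x y

lemma pr_comm {U : H →L[ℂ] H} (hU : ‖U‖ ≤ 1) (n m : ℕ) (x : H) :
    (U ^ m) (pr U n x) = pr U n ((U ^ m) x) := by
  have h1 := ((U ^ m).continuous.tendsto _).comp (pr_tendsto hU n x)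
  have h2 := pr_tendsto hU n ((U ^ m) x)
  refine tendsto_nhds_unique h1 (h2.congr fun N => ?_)
  have hc : ∀ k : ℕ, (⇑(U ^ n))^[k] ((U ^ m) x) = (U ^ m) ((⇑(U ^ n))^[k] x) := by
    intro k
    have h3 : Function.Commute (⇑(U ^ n)) (⇑(U ^ m)) := by
      intro y
      have h4 : (U ^ n) * (U ^ m) = (U ^ m) * (U ^ n) := by rw [← pow_add, ← pow_add, add_comm]
      exact congrArg (fun V : H →L[ℂ] H => V y) h4
    exact (h3.iterate_left k) x
  simp only [Function.comp_apply, birkhoffAverage, birkhoffSum, _root_.id, map_smul, map_sum, hc]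

lemma pr_orth {U : H →L[ℂ] H} (hU : ‖U‖ ≤ 1) {e : H} (he : U e = e)
    (herg : ∀ w, U w = w → w = ⟪e, w⟫_ℂ • e) {g : H} (hg : ⟪e, g⟫_ℂ = 0) {m n : ℕ}
    (hmn : Nat.Coprime m n) : ⟪pr U m g, pr U n g⟫_ℂ = 0 := by
  rw [pr_sa]
  set v := pr U m (pr U n g) with hv
  have h1 : (U ^ m) v = v := pr_fix U m _
  have h2 : (U ^ n) v = v := by
    rw [hv, pr_comm hU, pr_fix]
  have hp1 : Function.IsPeriodicPt (⇑U) m v := by
    show (⇑U)^[m] v = v
    rw [← pow_apply']
    exact h1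
  have hp2 : Function.IsPeriodicPt (⇑U) n v := by
    show (⇑U)^[n] v = v
    rw [← pow_apply']
    exact h2
  have h3 := hp1.gcd hp2
  rw [hmn] at h3
  have h4 : U v = v := h3
  have h5 := herg v h4
  have hem : ∀ k : ℕ, (U ^ k) e = e := by
    intro k
    rw [pow_apply']
    exact Function.iterate_fixed he k
  have h6 : ⟪e, v⟫_ℂ = 0 := by
    rw [hv, ← pr_sa, pr_eq (hem m), ← pr_sa, pr_eq (hem n), hg]
  rw [h6, zero_smul] at h5
  rw [h5, inner_zero_right]

/-- Bessel's inequality for the projections -/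
lemma bessel {U : H →L[ℂ] H} (hU : ‖U‖ ≤ 1) {e : H} (he : U e = e)
    (herg : ∀ w, U w = w → w = ⟪e, w⟫_ℂ • e) {g : H} (hg : ⟪e, g⟫_ℂ = 0) (s : Finset ℕ)
    (hs : ∀ p ∈ s, p.Prime) : ∑ p ∈ s, ‖pr U p g‖ ^ 2 ≤ ‖g‖ ^ 2 := by
  have key : ∀ t : Finset ℕ, (∀ p ∈ t, p.Prime) →
      ‖g - ∑ p ∈ t, pr U p g‖ ^ 2 = ‖g‖ ^ 2 - ∑ p ∈ t, ‖pr U p g‖ ^ 2 := by
    intro t
    induction t using Finset.induction_on with
    | empty => intro _; simp
    | insert q t hq ih =>
      intro ht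
      have ih' := ih fun p hp => ht p (Finset.mem_insert_of_mem hp)
      rw [Finset.sum_insert hq, Finset.sum_insert hq]
      have e1 : g - (pr U q g + ∑ p ∈ t, pr U p g) = (g - ∑ p ∈ t, pr U p g) - pr U q g := by abel
      rw [e1, norm_sub_sq (𝕜 := ℂ), ih']
      have e2 : ⟪g - ∑ p ∈ t, pr U p g, pr U q g⟫_ℂ = ((‖pr U q g‖ ^ 2 : ℝ) : ℂ) := by
        rw [inner_sub_left, sum_inner]
        have e3 : ∑ p ∈ t, ⟪pr U p g, pr U q g⟫_ℂ = 0 := by
          refine Finset.sum_eq_zero fun p hp => pr_orth hU he herg hg ?_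
          refine (Nat.coprime_primes (ht p (Finset.mem_insert_of_mem hp))
            (ht q (Finset.mem_insert_self _ _))).2 ?_
          rintro rfl
          exact hq hp
        rw [e3, sub_zero]
        have e4 : ⟪g, pr U q g⟫_ℂ = ⟪pr U q g, pr U q g⟫_ℂ := by
          rw [pr_sa U q g (pr U q g), pr_eq (pr_fix U q g)]
        rw [e4, inner_self_eq_norm_sq_to_K]
        push_cast
        rfl
      rw [e2]
      have e5 : RCLike.re (((‖pr U q g‖ ^ 2 : ℝ) : ℂ)) = ‖pr U q g‖ ^ 2 := Complex.ofReal_re _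
      rw [e5]
      ring
  have h1 := key s hs
  have h2 := sq_nonneg ‖g - ∑ p ∈ s, pr U p g‖
  linarith

lemma pr_small {U : H →L[ℂ] H} (hU : ‖U‖ ≤ 1) {e : H} (he : U e = e)
    (herg : ∀ w, U w = w → w = ⟪e, w⟫_ℂ • e) {g : H} (hg : ⟪e, g⟫_ℂ = 0) {δ : ℝ} (hδ : 0 < δ) :
    ∃ P₀ : ℕ, ∀ p, p.Prime → P₀ ≤ p → ‖pr U p g‖ ^ 2 < δ := by
  by_contra hcon
  push Not at hcon
  have hinf : {p : ℕ | p.Prime ∧ δ ≤ ‖pr U p g‖ ^ 2}.Infinite := by
    rw [Set.infinite_iff_exists_gt]
    intro n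
    obtain ⟨p, h1, h2, h3⟩ := hcon (n + 1)
    exact ⟨p, ⟨h1, h3⟩, by omega⟩
  obtain ⟨K, hK⟩ := exists_nat_gt (‖g‖ ^ 2 / δ)
  obtain ⟨s, hs, hsc⟩ := hinf.exists_subset_card_eq K
  have h1 := bessel hU he herg hg s fun p hp => (hs hp).1
  have h2 : (K : ℝ) * δ ≤ ∑ p ∈ s, ‖pr U p g‖ ^ 2 := by
    rw [← hsc, ← nsmul_eq_mul]
    exact Finset.card_nsmul_le_sum _ _ _ fun p hp => (hs hp).2
  rw [div_lt_iff₀ hδ] at hK
  linarith

end Hilbert

section Sums

lemma shift {v : ℕ → ℝ} (hv : ∀ n, |v n| ≤ 1) (a s N : ℕ) :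
    |∑ i ∈ Finset.range N, v (a + s + i) - ∑ i ∈ Finset.range N, v (a + i)| ≤ 2 * s := by
  have h1 : ∑ i ∈ Finset.range (s + N), v (a + i) =
      ∑ i ∈ Finset.range s, v (a + i) + ∑ i ∈ Finset.range N, v (a + s + i) := by
    rw [Finset.sum_range_add]
    simp only [add_assoc]
  have h2 : ∑ i ∈ Finset.range (N + s), v (a + i) =
      ∑ i ∈ Finset.range N, v (a + i) + ∑ i ∈ Finset.range s, v (a + N + i) := by
    rw [Finset.sum_range_add]
    simp only [add_assoc]
  rw [add_comm N s, h1] at h2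
  have hb : ∀ b : ℕ, |∑ i ∈ Finset.range s, v (b + i)| ≤ s := by
    intro b
    calc |∑ i ∈ Finset.range s, v (b + i)| ≤ ∑ i ∈ Finset.range s, |v (b + i)| :=
          Finset.abs_sum_le_sum_abs _ _
      _ ≤ ∑ i ∈ Finset.range s, (1 : ℝ) := Finset.sum_le_sum fun i _ => hv _
      _ = s := by simp
  have h3 : ∑ i ∈ Finset.range N, v (a + s + i) - ∑ i ∈ Finset.range N, v (a + i) =
      ∑ i ∈ Finset.range s, v (a + N + i) - ∑ i ∈ Finset.range s, v (a + i) := by linarith
  rw [h3]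
  have h4 := hb (a + N)
  have h5 := hb a
  rw [abs_le] at h4 h5 ⊢
  constructor <;> linarith [h4.1, h4.2, h5.1, h5.2]

end Sums

section Dyn

variable {X : Type*} [MetricSpace X] [CompactSpace X] [MeasurableSpace X] [BorelSpace X]

omit [MetricSpace X] [CompactSpace X] [BorelSpace X] in
/-- the unique invariant measure is ergodic -/
lemma ergodic_of_unique {T : X → X} {ν : Measure X} [IsProbabilityMeasure ν]
    (hpres : MeasurePreserving T ν ν)
    (huniq : ∀ μ : Measure X, IsProbabilityMeasure μ → MeasurePreserving T μ μ → μ = ν) :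
    JointErg T T ν := by
  intro E hE h1 _
  by_cases h0 : ν E = 0
  · exact Or.inl h0
  · right
    have hr : MeasurePreserving T (ν.restrict E) (ν.restrict E) := by
      have := hpres.restrict_preimage hE
      rwa [h1] at this
    have hp : IsProbabilityMeasure ((ν E)⁻¹ • ν.restrict E) := by
      constructor
      rw [Measure.smul_apply, Measure.restrict_apply_univ, smul_eq_mul]
      exact ENNReal.inv_mul_cancel h0 (measure_ne_top _ _)
    have hmp : MeasurePreserving T ((ν E)⁻¹ • ν.restrict E) ((ν E)⁻¹ • ν.restrict E) :=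
      ⟨hr.measurable, by rw [Measure.map_smul, hr.map_eq]⟩
    have h2 := huniq _ hp hmp
    have h3 : ν Eᶜ = 0 := by
      rw [← h2, Measure.smul_apply, Measure.restrict_apply hE.compl]
      simp
    rw [prob_compl_eq_zero_iff hE] at h3
    exact h3

/-- the variances along the multiples of large primes are small -/
lemma variance {T : X → X} {ν : Measure X} [IsProbabilityMeasure ν]
    (hpres : MeasurePreserving T ν ν)
    (huniq : ∀ μ : Measure X, IsProbabilityMeasure μ → MeasurePreserving T μ μ → μ = ν)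
    {G : X → ℝ} (hG : Continuous G) {δ : ℝ} (hδ : 0 < δ) :
    ∃ P₀ : ℕ, ∀ p, p.Prime → P₀ ≤ p → ∃ L : ℕ, 0 < L ∧
      ∫ y, ((L : ℝ)⁻¹ * (∑ t ∈ Finset.range L, (G (T^[t * p] y) - ∫ z, G z ∂ν))) ^ 2 ∂ν ≤ δ := by
  set A := ∫ z, G z ∂ν with hA
  have hbd : ∃ C, ∀ y, |G y| ≤ C := by
    obtain ⟨C, hC⟩ := isCompact_univ.exists_bound_of_continuousOn (f := G) hG.continuousOn
    exact ⟨C, fun y => hC y (mem_univ y)⟩
  obtain ⟨C, hC⟩ := hbd
  have hgm : MemLp (fun y => ((G y - A : ℝ) : ℂ)) 2 ν := by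
    refine MemLp.of_bound (C := C + |A|) ?_ (Eventually.of_forall fun y => ?_)
    · exact (Complex.continuous_ofReal.comp (hG.sub continuous_const)).aestronglyMeasurable
    · rw [Complex.norm_real]
      exact (norm_sub_le _ _).trans (add_le_add (hC y) le_rfl)
  set g : Lp ℂ 2 ν := hgm.toLp with hg
  have hge : ∀ᵐ y ∂ν, (g : X → ℂ) y = ((G y - A : ℝ) : ℂ) := hgm.coeFn_toLp
  have h1m : MemLp (fun _ : X => (1 : ℂ)) 2 ν := memLp_const 1
  set e : Lp ℂ 2 ν := h1m.toLp with he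
  have hee : ∀ᵐ x ∂ν, (e : X → ℂ) x = 1 := h1m.coeFn_toLp
  have hfix : comp hpres e = e := by
    apply Lp.ext
    filter_upwards [comp_coe hpres e, hee, hpres.quasiMeasurePreserving.ae hee] with x h1 h2 h3
    rw [h1, h2]
    exact h3
  have herg : ∀ w : Lp ℂ 2 ν, comp hpres w = w → w = ⟪e, w⟫_ℂ • e := by
    intro w h1
    set u : X → ℂ := (Lp.aestronglyMeasurable w).mk w with hu
    have hum : Measurable u := (Lp.aestronglyMeasurable w).stronglyMeasurable_mk.measurable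
    have hue : ∀ᵐ x ∂ν, w x = u x := (Lp.aestronglyMeasurable w).ae_eq_mk
    have hSu : ∀ᵐ x ∂ν, u (T x) = u x := by
      have h3 := comp_coe hpres w
      rw [h1] at h3
      filter_upwards [h3, hue, hpres.quasiMeasurePreserving.ae hue] with x a b c
      rw [← c, ← b, a]
      rfl
    obtain ⟨c, hc⟩ := const_of_inv (ergodic_of_unique hpres huniq) hpres hpres (fun x => rfl) hum hSu hSu
    have hwc : ∀ᵐ x ∂ν, w x = c := by
      filter_upwards [hue, hc] with x a b
      rw [a, b]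
    have hin : ⟪e, w⟫_ℂ = c := by
      rw [L2.inner_def]
      have : ∀ᵐ x ∂ν, ⟪(e : X → ℂ) x, w x⟫_ℂ = c := by
        filter_upwards [hee, hwc] with x a b
        rw [a, b]
        simp
      rw [integral_congr_ae this, integral_const, probReal_univ, one_smul]
    rw [hin]
    apply Lp.ext
    filter_upwards [hwc, hee, Lp.coeFn_smul c e] with x a b d
    rw [d, Pi.smul_apply, b, a, smul_eq_mul, mul_one]
  have hGi : Integrable G ν := Integrable.of_bound hG.aestronglyMeasurable C (Eventually.of_forall hC)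
  have hg0 : ⟪e, g⟫_ℂ = 0 := by
    rw [L2.inner_def]
    have : ∀ᵐ x ∂ν, ⟪(e : X → ℂ) x, (g : X → ℂ) x⟫_ℂ = ((G x - A : ℝ) : ℂ) := by
      filter_upwards [hee, hge] with x a b
      rw [a, b]
      simp
    rw [integral_congr_ae this, integral_complex_ofReal, integral_sub hGi (integrable_const _), integral_const,
      probReal_univ, one_smul, ← hA, sub_self]
    rfl
  obtain ⟨P₀, hP₀⟩ := pr_small (comp_norm hpres) hfix herg hg0 hδ
  refine ⟨P₀, fun p hp hpp => ?_⟩
  have h1 := hP₀ p hp hpp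
  have h2 := ((pr_tendsto (comp_norm hpres) p g).norm.pow 2).eventually (gt_mem_nhds h1)
  obtain ⟨L, hL, hL0⟩ := (h2.and (eventually_gt_atTop 0)).exists
  refine ⟨L, hL0, ?_⟩
  refine le_trans (le_of_eq ?_) hL.le
  -- the norm of the average
  set B := birkhoffAverage ℂ (⇑((comp hpres) ^ p)) _root_.id L g with hB
  have hBe : ∀ᵐ y ∂ν, (B : X → ℂ) y =
      (((L : ℝ)⁻¹ * (∑ t ∈ Finset.range L, (G (T^[t * p] y) - A)) : ℝ) : ℂ) := by
    have h3 : B = (L : ℂ)⁻¹ • ∑ t ∈ Finset.range L, (comp hpres)^[t * p] g := by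
      rw [hB, birkhoffAverage, birkhoffSum]
      congr 1
      refine Finset.sum_congr rfl fun t _ => ?_
      rw [_root_.id]
      have h4 : ∀ k : ℕ, (⇑((comp hpres) ^ p))^[k] g = (comp hpres)^[k * p] g := by
        intro k
        induction k with
        | zero => simp
        | succ k ih =>
          rw [Function.iterate_succ_apply', ih, pow_apply', ← Function.iterate_add_apply]
          congr 2
          ring
      exact h4 t
    rw [h3]
    have h5 : ∀ᵐ y ∂ν, ∀ t ∈ Finset.range L, ((comp hpres)^[t * p] g : X → ℂ) y =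
        ((G (T^[t * p] y) - A : ℝ) : ℂ) := by
      rw [Filter.eventually_all_finset]
      intro t _
      filter_upwards [comp_iter hpres g (t * p), (hpres.iterate (t * p)).quasiMeasurePreserving.ae hge]
        with y h6 h7
      rw [h6]
      exact h7
    filter_upwards [Lp.coeFn_smul ((L : ℂ)⁻¹) (∑ t ∈ Finset.range L, (comp hpres)^[t * p] g), h5,
      Lp.coeFn_finsetSum (Finset.range L) (fun t => (comp hpres)^[t * p] g)] with y h6 h7 h8
    rw [h6, Pi.smul_apply, h8, smul_eq_mul, Finset.sum_apply, Finset.sum_congr rfl h7]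
    push_cast
    rfl
  have h9 : ‖B‖ ^ 2 = (⟪B, B⟫_ℂ).re := by
    rw [inner_self_eq_norm_sq_to_K]
    norm_cast
  rw [h9, L2.inner_def]
  have h10 : ∀ᵐ y ∂ν, ⟪(B : X → ℂ) y, (B : X → ℂ) y⟫_ℂ =
      ((((L : ℝ)⁻¹ * (∑ t ∈ Finset.range L, (G (T^[t * p] y) - A))) ^ 2 : ℝ) : ℂ) := by
    filter_upwards [hBe] with y hy
    rw [hy, inner_self_eq_norm_sq_to_K, Complex.norm_real, Real.norm_eq_abs,
      ← sq_abs ((L : ℝ)⁻¹ * (∑ t ∈ Finset.range L, (G (T^[t * p] y) - A)))]
    push_cast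
    rfl
  rw [integral_congr_ae h10, integral_complex_ofReal, Complex.ofReal_re]

lemma periodic_mul {u : ℕ → ℝ} {p : ℕ} (hu : ∀ n, u (n + p) = u n) (n t : ℕ) : u (n + t * p) = u n := by
  induction t with
  | zero => simp
  | succ t ih =>
    rw [Nat.succ_mul, ← add_assoc, hu, ih]

/-- **Near independence of the residues modulo large primes.** -/
theorem residues {T : X → X} (hT : Continuous T) {ν : Measure X} [IsProbabilityMeasure ν]
    (hpres : MeasurePreserving T ν ν)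
    (huniq : ∀ μ : Measure X, IsProbabilityMeasure μ → MeasurePreserving T μ μ → μ = ν)
    (x : X) {G : X → ℝ} (hG : Continuous G) (hG0 : ∀ y, 0 ≤ G y) (hG1 : ∀ y, G y ≤ 1)
    {ε : ℝ} (hε : 0 < ε) :
    ∃ P₀ : ℕ, ∀ p, p.Prime → P₀ ≤ p → ∃ N₀ : ℕ, ∀ N, N₀ ≤ N → ∀ (a : ℕ) (u : ℕ → ℝ),
      (∀ n, 0 ≤ u n) → (∀ n, u n ≤ 1) → (∀ n, u (n + p) = u n) →
      |∑ i ∈ Finset.range N, u (a + i) * (G (T^[a + i] x) - ∫ z, G z ∂ν)| ≤ ε * N := by
  set A := ∫ z, G z ∂ν with hA
  have hA0 : 0 ≤ A := integral_nonneg hG0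
  have hGi : Integrable G ν := Integrable.of_bound hG.aestronglyMeasurable 1 (Eventually.of_forall fun y => by
    rw [Real.norm_of_nonneg (hG0 y)]
    exact hG1 y)
  have hA1 : A ≤ 1 := by
    have := integral_mono hGi (integrable_const (1 : ℝ)) hG1
    rwa [integral_const, probReal_univ, one_smul] at this
  obtain ⟨P₀, hP₀⟩ := variance hpres huniq hG (δ := ε ^ 2 / 8) (by positivity)
  refine ⟨P₀, fun p hp hpp => ?_⟩
  obtain ⟨L, hL0, hV⟩ := hP₀ p hp hpp
  rw [← hA] at hV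
  set b : X → ℝ := fun y => (L : ℝ)⁻¹ * (∑ t ∈ Finset.range L, (G (T^[t * p] y) - A)) with hb
  have hbc : Continuous b := by
    refine continuous_const.mul (continuous_finsetSum _ fun t _ => ?_)
    exact (hG.comp (hT.iterate _)).sub continuous_const
  obtain ⟨N₁, hN₁⟩ := uniform hT ν huniq x (hbc.pow 2) (ε := ε ^ 2 / 8) (by positivity)
  obtain ⟨N₂, hN₂⟩ := exists_nat_ge (4 * (L * p) / ε : ℝ)
  refine ⟨max N₁ N₂, fun N hN a u hu0 hu1 hup => ?_⟩
  have hLR : (0 : ℝ) < L := by exact_mod_cast hL0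
  set v : ℕ → ℝ := fun n => u n * (G (T^[n] x) - A) with hv
  have hv1 : ∀ n, |v n| ≤ 1 := by
    intro n
    rw [hv]
    show |u n * (G (T^[n] x) - A)| ≤ 1
    rw [abs_mul, abs_of_nonneg (hu0 n)]
    have h1 : |G (T^[n] x) - A| ≤ 1 := by
      rw [abs_le]
      constructor <;> linarith [hG0 (T^[n] x), hG1 (T^[n] x)]
    exact mul_le_one₀ (hu1 n) (abs_nonneg _) h1
  -- shifts
  have h1 : ∀ t ∈ Finset.range L, |∑ i ∈ Finset.range N, v (a + t * p + i) -
      ∑ i ∈ Finset.range N, v (a + i)| ≤ 2 * (L * p) := by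
    intro t ht
    refine (shift hv1 a (t * p) N).trans ?_
    have : ((t * p : ℕ) : ℝ) ≤ L * p := by
      push_cast
      exact mul_le_mul_of_nonneg_right (by exact_mod_cast (Finset.mem_range.1 ht).le) (by positivity)
    linarith
  have h2 : |∑ t ∈ Finset.range L, ∑ i ∈ Finset.range N, v (a + t * p + i) -
      L * ∑ i ∈ Finset.range N, v (a + i)| ≤ L * (2 * (L * p)) := by
    have e1 : ∑ t ∈ Finset.range L, ∑ i ∈ Finset.range N, v (a + t * p + i) -
      L * ∑ i ∈ Finset.range N, v (a + i) = ∑ t ∈ Finset.range L, (∑ i ∈ Finset.range N, v (a + t * p + i) -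
        ∑ i ∈ Finset.range N, v (a + i)) := by
      rw [Finset.sum_sub_distrib, Finset.sum_const, Finset.card_range, nsmul_eq_mul]
    rw [e1]
    refine (Finset.abs_sum_le_sum_abs _ _).trans ?_
    refine (Finset.sum_le_sum h1).trans (le_of_eq ?_)
    rw [Finset.sum_const, Finset.card_range, nsmul_eq_mul]
  have h3 : ∑ t ∈ Finset.range L, ∑ i ∈ Finset.range N, v (a + t * p + i) =
      L * ∑ i ∈ Finset.range N, u (a + i) * b (T^[a + i] x) := by
    rw [Finset.sum_comm, Finset.mul_sum]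
    refine Finset.sum_congr rfl fun i _ => ?_
    rw [hb]
    show _ = (L : ℝ) * (u (a + i) * ((L : ℝ)⁻¹ * (∑ t ∈ Finset.range L, (G (T^[t * p] (T^[a + i] x)) - A))))
    rw [show (L : ℝ) * (u (a + i) * ((L : ℝ)⁻¹ * (∑ t ∈ Finset.range L, (G (T^[t * p] (T^[a + i] x)) - A)))) =
      (L * (L : ℝ)⁻¹) * (u (a + i) * (∑ t ∈ Finset.range L, (G (T^[t * p] (T^[a + i] x)) - A))) by ring]
    rw [mul_inv_cancel₀ hLR.ne', one_mul, Finset.mul_sum]
    refine Finset.sum_congr rfl fun t _ => ?_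
    rw [hv]
    show u (a + t * p + i) * (G (T^[a + t * p + i] x) - A) = _
    rw [show a + t * p + i = (a + i) + t * p by ring, periodic_mul hup, ← Function.iterate_add_apply,
      add_comm (t * p)]
  rw [h3, ← mul_sub, abs_mul, abs_of_pos hLR] at h2
  have h4 := le_of_mul_le_mul_left h2 hLR
  -- the sum of the averages
  have h5 : |∑ i ∈ Finset.range N, u (a + i) * b (T^[a + i] x)| ≤ ε / 2 * N := by
    have h6 := hN₁ N ((le_max_left _ _).trans hN) a
    have h7 : ∑ i ∈ Finset.range N, (b (T^[a + i] x)) ^ 2 ≤ ε ^ 2 / 4 * N := by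
      have h8 := (abs_le.1 h6).2
      simp only [Pi.pow_apply] at h8
      have h9 : (N : ℝ) * ∫ y, b y ^ 2 ∂ν ≤ N * (ε ^ 2 / 8) :=
        mul_le_mul_of_nonneg_left hV (by positivity)
      linarith
    calc |∑ i ∈ Finset.range N, u (a + i) * b (T^[a + i] x)|
        ≤ ∑ i ∈ Finset.range N, |u (a + i) * b (T^[a + i] x)| := Finset.abs_sum_le_sum_abs _ _
      _ ≤ ∑ i ∈ Finset.range N, ((b (T^[a + i] x)) ^ 2 * ε⁻¹ + ε / 4) := by
          refine Finset.sum_le_sum fun i _ => ?_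
          rw [abs_mul, abs_of_nonneg (hu0 _)]
          have h10 : |b (T^[a + i] x)| ≤ (b (T^[a + i] x)) ^ 2 * ε⁻¹ + ε / 4 := by
            have h11 : |b (T^[a + i] x)| * ε ≤ (b (T^[a + i] x)) ^ 2 + ε ^ 2 / 4 := by
              have := sq_nonneg (|b (T^[a + i] x)| - ε / 2)
              have h12 := sq_abs (b (T^[a + i] x))
              nlinarith
            have h13 : |b (T^[a + i] x)| = (|b (T^[a + i] x)| * ε) * ε⁻¹ := by
              field_simp
            rw [h13]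
            have h14 : ((b (T^[a + i] x)) ^ 2 + ε ^ 2 / 4) * ε⁻¹ = (b (T^[a + i] x)) ^ 2 * ε⁻¹ + ε / 4 := by
              field_simp
            rw [← h14]
            exact mul_le_mul_of_nonneg_right h11 (by positivity)
          exact (mul_le_of_le_one_left (abs_nonneg _) (hu1 _)).trans h10
      _ = (∑ i ∈ Finset.range N, (b (T^[a + i] x)) ^ 2) * ε⁻¹ + N * (ε / 4) := by
          rw [Finset.sum_add_distrib, Finset.sum_mul, Finset.sum_const, Finset.card_range, nsmul_eq_mul]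
      _ ≤ (ε ^ 2 / 4 * N) * ε⁻¹ + N * (ε / 4) := by
          have := mul_le_mul_of_nonneg_right h7 (show (0 : ℝ) ≤ ε⁻¹ by positivity)
          linarith
      _ = ε / 2 * N := by
          field_simp
          ring
  have h15 : 2 * ((L : ℝ) * p) ≤ ε / 2 * N := by
    have h16 : (N₂ : ℝ) ≤ N := by exact_mod_cast (le_max_right _ _).trans hN
    have h17 := hN₂.trans h16
    rw [div_le_iff₀ hε] at h17
    linarith
  show |∑ i ∈ Finset.range N, v (a + i)| ≤ ε * N
  rw [abs_le] at h4 h5 ⊢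
  constructor <;> linarith [h4.1, h4.2, h5.1, h5.2]

end Dyn

end Pool.Agent.R202.WI
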