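import Mathlib

/-!
Windows of large density and a function which is, on such windows, any given periodic function.
-/

set_option autoImplicit false

open Filter Topology Set

namespace Pool.Agent.R202.WI

/-- `S` has upper Banach density `d` -/
def HasUpperBanachDensity (S : Set ℕ) (d : ℝ) : Prop :=
  Tendsto (fun N : ℕ => ⨆ m : ℕ, ((S ∩ Set.Ioc m (m + N)).ncard : ℝ) / N) atTop (𝓝 d)

/-- counting in windows -/
noncomputable def cnt (S : Set ℕ) (a N : ℕ) : ℕ := (S ∩ Set.Ico a (a + N)).ncard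

lemma cnt_le (S : Set ℕ) (a N : ℕ) : cnt S a N ≤ N := by
  have h := Set.ncard_le_ncard (s := S ∩ Set.Ico a (a + N)) (t := Set.Ico a (a + N)) inter_subset_right
    (Set.finite_Ico _ _)
  have h2 : (Set.Ico a (a + N)).ncard = N := by
    rw [← Finset.coe_Ico, Set.ncard_coe_finset, Nat.card_Ico]
    omega
  rw [h2] at h
  exact h

lemma Ioc_eq (m N : ℕ) : Set.Ioc m (m + N) = Set.Ico (m + 1) (m + 1 + N) := by
  ext n
  simp only [mem_Ioc, mem_Ico]
  omega

lemma bdd (S : Set ℕ) (N : ℕ) : BddAbove (range fun m : ℕ => ((S ∩ Set.Ioc m (m + N)).ncard : ℝ) / N) := by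
  refine ⟨1, ?_⟩
  rintro _ ⟨m, rfl⟩
  show ((S ∩ Set.Ioc m (m + N)).ncard : ℝ) / N ≤ 1
  rw [Ioc_eq]
  refine div_le_one_of_le₀ ?_ (by positivity)
  exact_mod_cast cnt_le S (m + 1) N

/-- no long windows inside `S` -/
lemma gap {S : Set ℕ} {k : ℕ} (hk : 2 ≤ k) (hS : HasUpperBanachDensity S (1 / k)) :
    ∃ n : ℕ, 0 < n ∧ ∀ m : ℕ, ∃ i < n, m + i ∉ S := by
  have h1 : (1 / k : ℝ) < 1 := by
    have hk' : (2 : ℝ) ≤ k := by exact_mod_cast hk
    rw [div_lt_one (by linarith)]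
    linarith
  obtain ⟨N, hN, hN0⟩ := ((hS.eventually (gt_mem_nhds h1)).and (eventually_gt_atTop 0)).exists
  refine ⟨N + 1, by omega, fun m => ?_⟩
  by_contra hcon
  push Not at hcon
  have h2 : S ∩ Set.Ioc m (m + N) = Set.Ico (m + 1) (m + 1 + N) := by
    rw [Ioc_eq]
    refine inter_eq_right.2 fun n hn => ?_
    have := hcon (n - m) (by have := hn.1; have := hn.2; omega)
    rwa [show m + (n - m) = n by have := hn.1; omega] at this
  have h3 : ((S ∩ Set.Ioc m (m + N)).ncard : ℝ) / N = 1 := by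
    rw [h2, ← Finset.coe_Ico, Set.ncard_coe_finset, Nat.card_Ico]
    rw [show m + 1 + N - (m + 1) = N by omega]
    exact div_self (by exact_mod_cast hN0.ne')
  have h4 := le_ciSup (bdd S N) m
  have h5 : (1 : ℝ) ≤ ⨆ m : ℕ, ((S ∩ Set.Ioc m (m + N)).ncard : ℝ) / N := by
    rw [← h3]
    exact h4
  linarith

/-- dense windows far away -/
lemma dense_window {S : Set ℕ} {d : ℝ} (hS : HasUpperBanachDensity S d) (B L : ℕ) {ε : ℝ} (hε : 0 < ε) :
    ∃ a N : ℕ, B ≤ a ∧ L ≤ N ∧ 0 < N ∧ (d - ε) * N ≤ cnt S a N := by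
  have h1 : d - ε / 2 < d := by linarith
  obtain ⟨N₁, hN₁⟩ := exists_nat_ge (2 * B / ε : ℝ)
  obtain ⟨N, hN, hNl⟩ := ((hS.eventually (lt_mem_nhds h1)).and
    (eventually_ge_atTop (L + B + N₁ + 1))).exists
  obtain ⟨m, hm⟩ := exists_lt_of_lt_ciSup hN
  have hNp : (0 : ℝ) < N := by exact_mod_cast (by omega : 0 < N)
  rw [Ioc_eq, lt_div_iff₀ hNp] at hm
  by_cases hmB : B ≤ m + 1
  · refine ⟨m + 1, N, hmB, by omega, by omega, ?_⟩
    refine le_trans ?_ hm.le
    exact mul_le_mul_of_nonneg_right (by linarith) hNp.le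
  · refine ⟨B, m + 1 + N - B, le_rfl, by omega, by omega, ?_⟩
    have h2 : S ∩ Set.Ico (m + 1) (m + 1 + N) ⊆ (S ∩ Set.Ico B (B + (m + 1 + N - B))) ∪ Set.Ico 0 B := by
      rintro n ⟨hn1, hn2⟩
      by_cases hnB : n < B
      · exact Or.inr ⟨Nat.zero_le _, hnB⟩
      · refine Or.inl ⟨hn1, by omega, ?_⟩
        have := hn2.2
        omega
    have h3 : (S ∩ Set.Ico (m + 1) (m + 1 + N)).ncard ≤ cnt S B (m + 1 + N - B) + B := by
      refine (Set.ncard_le_ncard h2 (((Set.finite_Ico _ _).subset inter_subset_right).union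
        (Set.finite_Ico _ _))).trans ((Set.ncard_union_le _ _).trans ?_)
      refine Nat.add_le_add le_rfl ?_
      rw [← Finset.coe_Ico, Set.ncard_coe_finset, Nat.card_Ico]
      omega
    have h4 : ((S ∩ Set.Ico (m + 1) (m + 1 + N)).ncard : ℝ) ≤ cnt S B (m + 1 + N - B) + B := by
      exact_mod_cast h3
    have h5 : (N₁ : ℝ) ≤ N := by exact_mod_cast (by omega : N₁ ≤ N)
    have h6 := hN₁.trans h5
    rw [div_le_iff₀ hε] at h6
    rcases le_or_gt 0 (d - ε) with hd | hd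
    · have h7 : ((m + 1 + N - B : ℕ) : ℝ) ≤ N := by exact_mod_cast (by omega : m + 1 + N - B ≤ N)
      have h8 : (d - ε) * ((m + 1 + N - B : ℕ) : ℝ) ≤ (d - ε) * N := mul_le_mul_of_nonneg_left h7 hd
      linarith
    · have h8 : (d - ε) * ((m + 1 + N - B : ℕ) : ℝ) ≤ 0 :=
        mul_nonpos_of_nonpos_of_nonneg hd.le (by positivity)
      exact h8.trans (by positivity)

/-- **The test function.** -/
theorem test_function {S : Set ℕ} {k : ℕ} (hk : 0 < k) {d : ℝ} (hS : HasUpperBanachDensity S d) :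
    ∃ f : ℕ → ℕ, (∀ n, f n < k) ∧ ∀ (p : ℕ) (c : ℕ → ℕ), 0 < p → (∀ n, c n < k) →
      (∀ n, c (n + p) = c n) → ∀ (ε : ℝ) (L : ℕ), 0 < ε → ∃ a N : ℕ, L ≤ N ∧ 0 < N ∧
        (d - ε) * N ≤ cnt S a N ∧ ∀ n, a ≤ n → n < a + N → f n = c n := by
  classical
  -- the windows
  have hW : ∀ B j : ℕ, ∃ a N : ℕ, B ≤ a ∧ j + 1 ≤ N ∧ 0 < N ∧
      (d - 1 / ((j : ℝ) + 1)) * N ≤ cnt S a N := fun B j => dense_window hS B (j + 1) (by positivity)
  choose a N ha hN hN0 hd using hW
  set bd : ℕ → ℕ := fun j => Nat.rec 0 (fun j b => a b j + N b j) j with hbd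
  have hbds : ∀ j, bd (j + 1) = a (bd j) j + N (bd j) j := fun j => rfl
  set A : ℕ → ℕ := fun j => a (bd j) j with hA
  set M : ℕ → ℕ := fun j => N (bd j) j with hM
  have hmono : Monotone bd := by
    refine monotone_nat_of_le_succ fun j => ?_
    rw [hbds]
    have := ha (bd j) j
    omega
  have hdisj : ∀ i j n : ℕ, A i ≤ n → n < A i + M i → A j ≤ n → n < A j + M j → i = j := by
    have key : ∀ i j n : ℕ, i < j → n < A i + M i → A j ≤ n → False := by
      intro i j n hij h1 h2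
      have h3 : bd (i + 1) ≤ bd j := hmono hij
      rw [hbds] at h3
      have h4 := ha (bd j) j
      have h5 : a (bd i) i + N (bd i) i = A i + M i := rfl
      have h6 : a (bd j) j = A j := rfl
      omega
    intro i j n h1 h2 h3 h4
    rcases lt_trichotomy i j with h | h | h
    · exact (key i j n h h2 h3).elim
    · exact h
    · exact (key j i n h h4 h1).elim
  -- the enumeration of periodic functions
  have : NeZero k := ⟨hk.ne'⟩
  obtain ⟨g, hg⟩ := exists_surjective_nat (Σ p : ℕ, (Fin (p + 1) → Fin k))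
  set C : ℕ → ℕ → ℕ := fun j n =>
    ((g (Nat.unpair j).1).2 ⟨n % ((g (Nat.unpair j).1).1 + 1), Nat.mod_lt _ (Nat.succ_pos _)⟩ : ℕ) with hC
  have hCk : ∀ j n, C j n < k := fun j n => Fin.is_lt _
  have hCall : ∀ (p : ℕ) (c : ℕ → ℕ), 0 < p → (∀ n, c n < k) → (∀ n, c (n + p) = c n) →
      ∃ s : ℕ, ∀ t n, C (Nat.pair s t) n = c n := by
    intro p c hp hck hcp
    obtain ⟨q, rfl⟩ : ∃ q, p = q + 1 := ⟨p - 1, by omega⟩
    obtain ⟨s, hs⟩ := hg ⟨q, fun i => ⟨c i, hck i⟩⟩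
    refine ⟨s, fun t n => ?_⟩
    have hmod : ∀ n, c (n % (q + 1)) = c n := by
      intro n
      have h1 : ∀ t m, c (m + t * (q + 1)) = c m := by
        intro t m
        induction t with
        | zero => simp
        | succ t ih =>
          rw [Nat.succ_mul, ← add_assoc, hcp, ih]
      conv_rhs => rw [← Nat.mod_add_div' n (q + 1)]
      rw [h1]
    have h2 : ∀ (z : Σ p : ℕ, (Fin (p + 1) → Fin k)), z = ⟨q, fun i => ⟨c i, hck i⟩⟩ →
        ((z.2 ⟨n % (z.1 + 1), Nat.mod_lt _ (Nat.succ_pos _)⟩ : Fin k) : ℕ) = c n := by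
      rintro z rfl
      exact hmod n
    rw [hC]
    show ((g (Nat.unpair (Nat.pair s t)).1).2 _ : ℕ) = c n
    refine h2 _ ?_
    rw [Nat.unpair_pair]
    exact hs
  -- the function
  set f : ℕ → ℕ := fun n => if h : ∃ j, A j ≤ n ∧ n < A j + M j then C h.choose n else 0 with hf
  refine ⟨f, fun n => ?_, fun p c hp hck hcp ε L hε => ?_⟩
  · rw [hf]
    show (if h : ∃ j, A j ≤ n ∧ n < A j + M j then C h.choose n else 0) < k
    split_ifs with h
    · exact hCk _ _
    · exact hk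
  · obtain ⟨s, hs⟩ := hCall p c hp hck hcp
    obtain ⟨t₁, ht₁⟩ := exists_nat_ge (1 / ε)
    set j := Nat.pair s (max L t₁) with hj
    have hjge : max L t₁ ≤ j := Nat.right_le_pair _ _
    refine ⟨A j, M j, ?_, hN0 _ _, ?_, fun n h1 h2 => ?_⟩
    · have h1 := hN (bd j) j
      have h2 : L ≤ j := (le_max_left _ _).trans hjge
      show L ≤ N (bd j) j
      omega
    · refine le_trans ?_ (hd (bd j) j)
      refine mul_le_mul_of_nonneg_right ?_ (by positivity)
      have h3 : (t₁ : ℝ) ≤ j := by exact_mod_cast (le_max_right _ _).trans hjge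
      have h4 : 1 / ((j : ℝ) + 1) ≤ ε := by
        rw [div_le_iff₀ (by positivity)]
        rw [div_le_iff₀ hε] at ht₁
        nlinarith
      linarith
    · have h3 : ∃ j, A j ≤ n ∧ n < A j + M j := ⟨j, h1, h2⟩
      rw [hf]
      show (if h : ∃ j, A j ≤ n ∧ n < A j + M j then C h.choose n else 0) = c n
      rw [dif_pos h3]
      have h4 : h3.choose = j := hdisj _ _ n h3.choose_spec.1 h3.choose_spec.2 h1 h2
      rw [h4, hj]
      exact hs _ n

end Pool.Agent.R202.WI
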