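import Mathlib
import Pool.Agent.R202.WI.Res
import Pool.Agent.R202.WI.Windows

/-!
No weak interpolation set of order `k ≥ 2` has upper Banach density `1 / k`.
-/

set_option autoImplicit false

open MeasureTheory Filter Topology Set
open scoped ENNReal

namespace Pool.Agent.R202.WI

/-- tents around the natural numbers -/
noncomputable def tent (c : ℕ) (z : ℂ) : ℝ := max 0 (1 - 2 * ‖z - c‖)

lemma tent_cont (c : ℕ) : Continuous (tent c) := by
  unfold tent
  fun_prop

lemma tent_nonneg (c : ℕ) (z : ℂ) : 0 ≤ tent c z := le_max_left _ _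

lemma tent_le (c : ℕ) (z : ℂ) : tent c z ≤ 1 := by
  unfold tent
  exact max_le zero_le_one (by linarith [norm_nonneg (z - c)])

lemma tent_self (c : ℕ) : tent c (c : ℂ) = 1 := by
  unfold tent
  simp

lemma tent_pos {c : ℕ} {z : ℂ} (h : tent c z ≠ 0) : ‖z - c‖ < 1 / 2 := by
  unfold tent at h
  by_contra hcon
  push Not at hcon
  exact h (max_eq_left (by linarith))

lemma tent_sum (k : ℕ) (z : ℂ) : ∑ c ∈ Finset.range k, tent c z ≤ 1 := by
  by_cases h : ∃ c₀ ∈ Finset.range k, tent c₀ z ≠ 0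
  · obtain ⟨c₀, hc₀, h0⟩ := h
    have h1 : ∑ c ∈ Finset.range k, tent c z = tent c₀ z := by
      refine Finset.sum_eq_single_of_mem c₀ hc₀ fun c _ hne => ?_
      by_contra hc
      have h2 := tent_pos hc
      have h3 := tent_pos h0
      have h4 : ‖((c : ℂ) - c₀)‖ < 1 := by
        have h5 : ((c : ℂ) - c₀) = (z - c₀) - (z - c) := by ring
        rw [h5]
        refine (norm_sub_le _ _).trans_lt ?_
        linarith
      have h5 : (1 : ℝ) ≤ ‖((c : ℂ) - c₀)‖ := by
        have h6 : ((c : ℂ) - c₀) = (((c : ℤ) - c₀ : ℤ) : ℂ) := by push_cast; ring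
        rw [h6, Complex.norm_intCast]
        have h7 : ((c : ℤ) - c₀) ≠ 0 := by
          intro h
          apply hne
          have : (c : ℤ) = c₀ := by linarith
          exact_mod_cast this
        have h8 : (1 : ℤ) ≤ |(c : ℤ) - c₀| := Int.one_le_abs h7
        exact_mod_cast h8
      linarith
    rw [h1]
    exact tent_le _ _
  · push Not at h
    rw [Finset.sum_eq_zero h]
    exact zero_le_one

lemma period_sum {u : ℕ → ℝ} {p : ℕ} (hu : ∀ n, u (n + p) = u n) (b : ℕ) :
    ∑ i ∈ Finset.range p, u (b + i) = ∑ i ∈ Finset.range p, u i := by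
  induction b with
  | zero => simp
  | succ b ih =>
    rw [← ih]
    have h1 : ∑ i ∈ Finset.range (p + 1), u (b + i) = ∑ i ∈ Finset.range p, u (b + i) + u (b + p) :=
      Finset.sum_range_succ _ _
    have h2 : ∑ i ∈ Finset.range (p + 1), u (b + i) = ∑ i ∈ Finset.range p, u (b + (i + 1)) + u (b + 0) :=
      Finset.sum_range_succ' _ _
    rw [hu] at h1
    have h3 : ∑ i ∈ Finset.range p, u (b + (i + 1)) = ∑ i ∈ Finset.range p, u (b + 1 + i) :=
      Finset.sum_congr rfl fun i _ => by rw [add_assoc b 1 i, add_comm 1 i]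
    rw [← h3]
    rw [add_zero] at h2
    linarith

lemma period_sum_mul {u : ℕ → ℝ} {p : ℕ} (hu : ∀ n, u (n + p) = u n) (b q : ℕ) :
    ∑ i ∈ Finset.range (q * p), u (b + i) = q * ∑ i ∈ Finset.range p, u i := by
  induction q with
  | zero => simp
  | succ q ih =>
    rw [Nat.succ_mul, Finset.sum_range_add, ih]
    have h1 : ∑ i ∈ Finset.range p, u (b + (q * p + i)) = ∑ i ∈ Finset.range p, u i := by
      rw [← period_sum hu (b + q * p)]
      exact Finset.sum_congr rfl fun i _ => by rw [add_assoc]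
    rw [h1]
    push_cast
    ring

/-- the indicator of the starting places of the blocks -/
noncomputable def st (p n m : ℕ) : ℝ := if (m % p) % n = 0 ∧ m % p + n ≤ p then 1 else 0

lemma st_nonneg (p n m : ℕ) : 0 ≤ st p n m := by
  unfold st
  split_ifs <;> norm_num

lemma st_le (p n m : ℕ) : st p n m ≤ 1 := by
  unfold st
  split_ifs <;> norm_num

lemma st_per (p n m : ℕ) : st p n (m + p) = st p n m := by
  unfold st
  rw [Nat.add_mod_right]

lemma half_floor {x y : ℕ} (hy : 0 < y) (hxy : y ≤ x) : (x : ℝ) / (2 * y) ≤ (x / y : ℕ) := by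
  have hyR : (0 : ℝ) < y := by exact_mod_cast hy
  rw [div_le_iff₀ (by positivity)]
  have h1 : x < y * (x / y) + y := by
    have h2 := Nat.div_add_mod x y
    have h3 := Nat.mod_lt x hy
    omega
  have h4 : 1 ≤ x / y := (Nat.one_le_div_iff hy).2 hxy
  have h5 : y ≤ y * (x / y) := Nat.le_mul_of_pos_right _ h4
  have h6 : x ≤ (x / y) * (2 * y) := by nlinarith
  exact_mod_cast h6

lemma st_sum {p n N : ℕ} (hn : 0 < n) (hp : n ≤ p) (hN : p ≤ N) (a : ℕ) :
    (N : ℝ) / (4 * n) ≤ ∑ i ∈ Finset.range N, st p n (a + i) := by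
  have hp0 : 0 < p := lt_of_lt_of_le hn hp
  -- one period
  have h1 : ((p / n : ℕ) : ℝ) ≤ ∑ i ∈ Finset.range p, st p n i := by
    have h2 : ∑ i ∈ Finset.range p, st p n i =
        (((Finset.range p).filter fun i => (i % p) % n = 0 ∧ i % p + n ≤ p).card : ℝ) := by
      rw [Finset.card_filter]
      push_cast
      rfl
    rw [h2]
    have h3 : (Finset.range (p / n)).image (fun t => t * n) ⊆
        (Finset.range p).filter fun i => (i % p) % n = 0 ∧ i % p + n ≤ p := by
      intro i hi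
      obtain ⟨t, ht, rfl⟩ := Finset.mem_image.1 hi
      have ht' := Finset.mem_range.1 ht
      have h4 : (t + 1) * n ≤ p := (Nat.mul_le_mul_right n ht').trans (Nat.div_mul_le_self p n)
      have h5 : t * n < p := by nlinarith
      refine Finset.mem_filter.2 ⟨Finset.mem_range.2 h5, ?_⟩
      rw [Nat.mod_eq_of_lt h5]
      exact ⟨Nat.mul_mod_left _ _, by nlinarith⟩
    have h4 := Finset.card_le_card h3
    rw [Finset.card_image_of_injective _ (fun a b hab => Nat.eq_of_mul_eq_mul_right hn hab),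
      Finset.card_range] at h4
    exact_mod_cast h4
  -- many periods
  have h2 : ((N / p : ℕ) : ℝ) * ∑ i ∈ Finset.range p, st p n i ≤ ∑ i ∈ Finset.range N, st p n (a + i) := by
    rw [← period_sum_mul (st_per p n) a (N / p)]
    refine Finset.sum_le_sum_of_subset_of_nonneg ?_ fun i _ _ => st_nonneg _ _ _
    exact Finset.range_subset_range.2 (Nat.div_mul_le_self N p)
  have h3 := half_floor hn hp
  have h4 := half_floor hp0 hN
  have hnR : (0 : ℝ) < n := by exact_mod_cast hn
  have hpR : (0 : ℝ) < p := by exact_mod_cast hp0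
  calc (N : ℝ) / (4 * n) = (N / (2 * p)) * (p / (2 * n)) := by
        field_simp
        ring
    _ ≤ ((N / p : ℕ) : ℝ) * ((p / n : ℕ) : ℝ) := mul_le_mul h4 h3 (by positivity) (by positivity)
    _ ≤ ((N / p : ℕ) : ℝ) * ∑ i ∈ Finset.range p, st p n i := mul_le_mul_of_nonneg_left h1 (by positivity)
    _ ≤ _ := h2

/-- counting as a sum -/
lemma cnt_sum (S : Set ℕ) [DecidablePred (· ∈ S)] (a N : ℕ) :
    (cnt S a N : ℝ) = ∑ i ∈ Finset.range N, if a + i ∈ S then (1 : ℝ) else 0 := by
  have h1 : S ∩ Set.Ico a (a + N) = (((Finset.Ico a (a + N)).filter (· ∈ S) : Finset ℕ) : Set ℕ) := by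
    ext n
    simp only [mem_inter_iff, mem_Ico, Finset.coe_filter, Finset.mem_Ico, mem_ofPred_eq]
    tauto
  rw [cnt, h1, Set.ncard_coe_finset, Finset.card_filter, Finset.sum_Ico_eq_sum_range]
  push_cast
  rw [show a + N - a = N by omega]

section Main

variable {X : Type*} [MetricSpace X] [CompactSpace X] [MeasurableSpace X] [BorelSpace X]

theorem core {k : ℕ} (hk : 2 ≤ k) {S : Set ℕ}
    {n : ℕ} (hn : 0 < n) (hgap : ∀ m : ℕ, ∃ i < n, m + i ∉ S)
    {f : ℕ → ℕ} (hf : ∀ (p : ℕ) (c : ℕ → ℕ), 0 < p → (∀ n, c n < k) →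
      (∀ n, c (n + p) = c n) → ∀ (ε : ℝ) (L : ℕ), 0 < ε → ∃ a N : ℕ, L ≤ N ∧ 0 < N ∧
        (1 / k - ε) * N ≤ cnt S a N ∧ ∀ n, a ≤ n → n < a + N → f n = c n)
    {T : X → X} (hT : Continuous T) {ν : Measure X} [IsProbabilityMeasure ν]
    (hpres : MeasurePreserving T ν ν)
    (huniq : ∀ μ : Measure X, IsProbabilityMeasure μ → MeasurePreserving T μ μ → μ = ν)
    (x : X) {F : X → ℂ} (hF : Continuous F) (hFf : ∀ n ∈ S, F (T^[n] x) = f n) : False := by
  classical
  have hk0 : (0 : ℝ) < k := by exact_mod_cast (by omega : 0 < k)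
  -- the observables
  set g : ℕ → X → ℝ := fun c y => tent c (F y) with hg
  have hgc : ∀ c, Continuous (g c) := fun c => (tent_cont c).comp hF
  have hg0 : ∀ c y, 0 ≤ g c y := fun c y => tent_nonneg _ _
  have hg1 : ∀ c y, g c y ≤ 1 := fun c y => tent_le _ _
  have hgi : ∀ c, Integrable (g c) ν := fun c =>
    Integrable.of_bound (hgc c).aestronglyMeasurable 1 (Eventually.of_forall fun y => by
      rw [Real.norm_of_nonneg (hg0 c y)]
      exact hg1 c y)
  set s : X → ℝ := fun y => ∑ c ∈ Finset.range k, g c y with hs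
  have hs1 : ∀ y, s y ≤ 1 := fun y => tent_sum k (F y)
  have hs0 : ∀ y, 0 ≤ s y := fun y => Finset.sum_nonneg fun c _ => hg0 c y
  have hsi : Integrable s ν := integrable_finsetSum _ fun c _ => hgi c
  -- lower bounds for the integrals
  have hlow : ∀ c ∈ Finset.range k, 1 / (k : ℝ) ≤ ∫ y, g c y ∂ν := by
    intro c hc
    refine le_of_forall_pos_le_add fun ε hε => ?_
    obtain ⟨N₀, hN₀⟩ := uniform hT ν huniq x (hgc c) (ε := ε / 2) (by positivity)
    obtain ⟨a, N, hN, hN0, hd, hfc⟩ := hf 1 (fun _ => c) one_pos (fun _ => Finset.mem_range.1 hc)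
      (fun _ => rfl) (ε / 2) N₀ (by positivity)
    have h1 := (abs_le.1 (hN₀ N hN a)).2
    have h2 : (cnt S a N : ℝ) ≤ ∑ i ∈ Finset.range N, g c (T^[a + i] x) := by
      rw [cnt_sum]
      refine Finset.sum_le_sum fun i hi => ?_
      split_ifs with hiS
      · rw [hg]
        show (1 : ℝ) ≤ tent c (F (T^[a + i] x))
        rw [hFf _ hiS, hfc (a + i) (by omega) (by have := Finset.mem_range.1 hi; omega), tent_self]
      · exact hg0 _ _
    have hNR : (0 : ℝ) < N := by exact_mod_cast hN0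
    have h3 : (1 / k) * (N : ℝ) ≤ (∫ y, g c y ∂ν + ε) * N := by nlinarith
    exact le_of_mul_le_mul_right h3 hNR
  have hsint : ∫ y, s y ∂ν = ∑ c ∈ Finset.range k, ∫ y, g c y ∂ν := integral_finsetSum _ fun c _ => hgi c
  have hsle : ∫ y, s y ∂ν ≤ 1 := by
    have := integral_mono hsi (integrable_const (1 : ℝ)) hs1
    rwa [integral_const, probReal_univ, one_smul] at this
  have hsum1 : ∑ _c ∈ Finset.range k, (1 / (k : ℝ)) = 1 := by
    rw [Finset.sum_const, Finset.card_range, nsmul_eq_mul]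
    field_simp
  have hseq : ∫ y, s y ∂ν = 1 := by
    refine le_antisymm hsle ?_
    rw [hsint, ← hsum1]
    exact Finset.sum_le_sum hlow
  have hval : ∀ c ∈ Finset.range k, ∫ y, g c y ∂ν = 1 / k := by
    have h1 : ∑ c ∈ Finset.range k, (1 / (k : ℝ)) = ∑ c ∈ Finset.range k, ∫ y, g c y ∂ν := by
      rw [hsum1, ← hsint, hseq]
    intro c hc
    exact ((Finset.sum_eq_sum_iff_of_le hlow).1 h1 c hc).symm
  -- the sum is almost surely one
  have hsae : ∀ᵐ y ∂ν, s y = 1 := by
    have h1 : ∫ y, (1 - s y) ∂ν = 0 := by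
      rw [integral_sub (integrable_const _) hsi, integral_const, probReal_univ, one_smul, hseq, sub_self]
    have h2 := (integral_eq_zero_iff_of_nonneg (f := fun y => 1 - s y) (fun y => by
      show 0 ≤ 1 - s y
      linarith [hs1 y]) ((integrable_const _).sub hsi)).1 h1
    filter_upwards [h2] with y hy
    have : 1 - s y = 0 := hy
    linarith
  -- words
  set Φ : (Fin n → ℕ) → X → ℝ := fun w y => ∏ i, g (w i) (T^[i] y) with hΦ
  have hΦc : ∀ w, Continuous (Φ w) := fun w =>
    continuous_finsetProd _ fun i _ => (hgc (w i)).comp (hT.iterate _)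
  have hΦ0 : ∀ w y, 0 ≤ Φ w y := fun w y => Finset.prod_nonneg fun i _ => hg0 _ _
  have hΦ1 : ∀ w y, Φ w y ≤ 1 := fun w y => Finset.prod_le_one (fun i _ => hg0 _ _) fun i _ => hg1 _ _
  have hΦi : ∀ w, Integrable (Φ w) ν := fun w =>
    Integrable.of_bound (hΦc w).aestronglyMeasurable 1 (Eventually.of_forall fun y => by
      rw [Real.norm_of_nonneg (hΦ0 w y)]
      exact hΦ1 w y)
  obtain ⟨w, hw, hwpos⟩ : ∃ w ∈ Fintype.piFinset (fun _ : Fin n => Finset.range k), 0 < ∫ y, Φ w y ∂ν := by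
    by_contra hcon
    push Not at hcon
    have h1 : ∀ᵐ y ∂ν, ∑ w ∈ Fintype.piFinset (fun _ : Fin n => Finset.range k), Φ w y = 1 := by
      have h2 : ∀ᵐ y ∂ν, ∀ i : Fin n, s (T^[i] y) = 1 := by
        rw [ae_all_iff]
        intro i
        exact (hpres.iterate i).quasiMeasurePreserving.ae hsae
      filter_upwards [h2] with y hy
      have h3 := Finset.prod_univ_sum (fun _ : Fin n => Finset.range k) (fun i c => g c (T^[i] y))
      rw [hΦ]
      show ∑ w ∈ Fintype.piFinset (fun _ : Fin n => Finset.range k), ∏ i, g (w i) (T^[i] y) = 1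
      rw [← h3]
      exact Finset.prod_eq_one fun i _ => hy i
    have h4 : ∫ y, ∑ w ∈ Fintype.piFinset (fun _ : Fin n => Finset.range k), Φ w y ∂ν = 1 := by
      rw [integral_congr_ae h1, integral_const, probReal_univ, one_smul]
    rw [integral_finsetSum _ fun w _ => hΦi w] at h4
    have h5 := Finset.sum_nonpos hcon
    linarith
  have hwk : ∀ i, w i < k := fun i => Finset.mem_range.1 (Fintype.mem_piFinset.1 hw i)
  set A := ∫ y, Φ w y ∂ν with hA
  -- the parameters
  have hnR : (0 : ℝ) < n := by exact_mod_cast hn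
  set ε : ℝ := A / (16 * n) / (1 + n * (k + 1)) with hε
  have hε0 : 0 < ε := by positivity
  have hεe : ε * (1 + n * (k + 1)) = A / (16 * n) := by
    rw [hε]
    field_simp
  have hres : ∀ c : ℕ, ∃ P₀ : ℕ, ∀ p, p.Prime → P₀ ≤ p → ∃ N₀ : ℕ, ∀ N, N₀ ≤ N → ∀ (a : ℕ) (u : ℕ → ℝ),
      (∀ n, 0 ≤ u n) → (∀ n, u n ≤ 1) → (∀ n, u (n + p) = u n) →
      |∑ i ∈ Finset.range N, u (a + i) * (g c (T^[a + i] x) - ∫ z, g c z ∂ν)| ≤ ε * N :=
    fun c => residues hT hpres huniq x (hgc c) (hg0 c) (hg1 c) hε0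
  choose P₀ hP₀ using hres
  obtain ⟨P₁, hP₁⟩ := residues hT hpres huniq x (hΦc w) (hΦ0 w) (hΦ1 w) hε0
  obtain ⟨p, hpge, hp⟩ := Nat.exists_infinite_primes (P₁ + n + ∑ c ∈ Finset.range k, P₀ c)
  have hpP : ∀ c ∈ Finset.range k, P₀ c ≤ p := by
    intro c hc
    have := Finset.single_le_sum (f := P₀) (fun _ _ => Nat.zero_le _) hc
    omega
  have hres2 : ∀ c : ℕ, ∃ N₀ : ℕ, c ∈ Finset.range k → ∀ N, N₀ ≤ N → ∀ (a : ℕ) (u : ℕ → ℝ),
      (∀ n, 0 ≤ u n) → (∀ n, u n ≤ 1) → (∀ n, u (n + p) = u n) →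
      |∑ i ∈ Finset.range N, u (a + i) * (g c (T^[a + i] x) - ∫ z, g c z ∂ν)| ≤ ε * N := by
    intro c
    by_cases hc : c ∈ Finset.range k
    · obtain ⟨N₀, h⟩ := hP₀ c p hp (hpP c hc)
      exact ⟨N₀, fun _ => h⟩
    · exact ⟨0, fun h => absurd h hc⟩
  choose N₀ hN₀ using hres2
  obtain ⟨N₁, hN₁⟩ := hP₁ p hp (by omega)
  obtain ⟨N₂, hN₂⟩ := exists_nat_ge (32 * (n : ℝ) ^ 3 / A)
  -- the periodic function
  set c : ℕ → ℕ := fun m => w ⟨(m % p) % n, Nat.mod_lt _ hn⟩ with hc
  have hck : ∀ m, c m < k := fun m => hwk _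
  have hcp : ∀ m, c (m + p) = c m := by
    intro m
    show w ⟨((m + p) % p) % n, _⟩ = w ⟨(m % p) % n, _⟩
    congr 1
    exact Fin.ext (by simp)
  obtain ⟨a, N, hN, hNpos, hd, hfc⟩ := hf p c hp.pos hck hcp ε
    (N₁ + N₂ + p + ∑ c ∈ Finset.range k, N₀ c) hε0
  have hNR : (0 : ℝ) < N := by exact_mod_cast hNpos
  have hNN : ∀ c' ∈ Finset.range k, N₀ c' ≤ N := by
    intro c' hc'
    have := Finset.single_le_sum (f := N₀) (fun _ _ => Nat.zero_le _) hc'
    omega
  -- the total agreement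
  have hI : ∑ i ∈ Finset.range N, g (c (a + i)) (T^[a + i] x) ≤ N / k + k * (ε * N) := by
    have h1 : ∀ i, g (c (a + i)) (T^[a + i] x) =
        ∑ c' ∈ Finset.range k, (if c (a + i) = c' then (1 : ℝ) else 0) * g c' (T^[a + i] x) := by
      intro i
      rw [Finset.sum_eq_single_of_mem (c (a + i)) (Finset.mem_range.2 (hck _))]
      · rw [if_pos rfl, one_mul]
      · intro c' _ hne
        rw [if_neg (Ne.symm hne), zero_mul]
    simp_rw [h1]
    rw [Finset.sum_comm]
    have h2 : ∀ c' ∈ Finset.range k, ∑ i ∈ Finset.range N,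
        (if c (a + i) = c' then (1 : ℝ) else 0) * g c' (T^[a + i] x) ≤
        (∑ i ∈ Finset.range N, (if c (a + i) = c' then (1 : ℝ) else 0)) * (1 / k) + ε * N := by
      intro c' hc'
      have h3 := hN₀ c' hc' N (hNN c' hc') a (fun m => if c m = c' then (1 : ℝ) else 0)
        (fun m => by
          show 0 ≤ (if c m = c' then (1 : ℝ) else 0)
          split_ifs <;> norm_num)
        (fun m => by
          show (if c m = c' then (1 : ℝ) else 0) ≤ 1
          split_ifs <;> norm_num)
        (fun m => by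
          show (if c (m + p) = c' then (1 : ℝ) else 0) = (if c m = c' then (1 : ℝ) else 0)
          rw [hcp])
      have h4 := (abs_le.1 h3).2
      simp_rw [mul_sub] at h4
      rw [Finset.sum_sub_distrib, ← Finset.sum_mul, hval c' hc'] at h4
      linarith
    refine (Finset.sum_le_sum h2).trans (le_of_eq ?_)
    rw [Finset.sum_add_distrib, ← Finset.sum_mul, Finset.sum_comm]
    have h5 : ∀ i ∈ Finset.range N, ∑ c' ∈ Finset.range k, (if c (a + i) = c' then (1 : ℝ) else 0) = 1 := by
      intro i _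
      rw [Finset.sum_ite_eq, if_pos (Finset.mem_range.2 (hck _))]
    rw [Finset.sum_congr rfl h5, Finset.sum_const, Finset.sum_const, Finset.card_range, Finset.card_range,
      nsmul_eq_mul, nsmul_eq_mul]
    ring
  -- the agreement outside of S
  set e : ℕ → ℝ := fun m => if m ∈ S then 0 else g (c m) (T^[m] x) with he
  have he0 : ∀ m, 0 ≤ e m := by
    intro m
    show 0 ≤ (if m ∈ S then 0 else g (c m) (T^[m] x))
    split_ifs
    · exact le_rfl
    · exact hg0 _ _
  have he1 : ∀ m, e m ≤ 1 := by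
    intro m
    show (if m ∈ S then 0 else g (c m) (T^[m] x)) ≤ 1
    split_ifs
    · exact zero_le_one
    · exact hg1 _ _
  have hE : ∑ i ∈ Finset.range N, e (a + i) ≤ (k + 1) * (ε * N) := by
    have h1 : ∑ i ∈ Finset.range N, g (c (a + i)) (T^[a + i] x) =
        ∑ i ∈ Finset.range N, ((if a + i ∈ S then (1 : ℝ) else 0) + e (a + i)) := by
      refine Finset.sum_congr rfl fun i hi => ?_
      show _ = (if a + i ∈ S then (1 : ℝ) else 0) + (if a + i ∈ S then 0 else g (c (a + i)) (T^[a + i] x))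
      split_ifs with hiS
      · rw [add_zero, hg]
        show tent (c (a + i)) (F (T^[a + i] x)) = 1
        rw [hFf _ hiS, hfc (a + i) (by omega) (by have := Finset.mem_range.1 hi; omega), tent_self]
      · rw [zero_add]
    rw [Finset.sum_add_distrib, ← cnt_sum] at h1
    have h2 : (N : ℝ) / k = 1 / k * N := by ring
    rw [h1, h2] at hI
    nlinarith
  -- the blocks
  have hblock : ∀ m, st p n m * Φ w (T^[m] x) ≤ ∑ t ∈ Finset.range n, e (m + t) := by
    intro m
    by_cases hm : (m % p) % n = 0 ∧ m % p + n ≤ p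
    · have h1 : st p n m = 1 := if_pos hm
      rw [h1, one_mul]
      obtain ⟨t, ht, htS⟩ := hgap m
      have h2 : c (m + t) = w ⟨t, ht⟩ := by
        show w ⟨((m + t) % p) % n, _⟩ = w ⟨t, ht⟩
        congr 1
        refine Fin.ext ?_
        show ((m + t) % p) % n = t
        have h3 : (m + t) % p = m % p + t := by
          rw [Nat.add_mod, Nat.mod_eq_of_lt (show t < p by omega)]
          exact Nat.mod_eq_of_lt (by omega)
        rw [h3, Nat.add_mod, hm.1, zero_add, Nat.mod_mod, Nat.mod_eq_of_lt ht]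
      have h4 : Φ w (T^[m] x) ≤ e (m + t) := by
        have h5 : e (m + t) = g (w ⟨t, ht⟩) (T^[t] (T^[m] x)) := by
          show (if m + t ∈ S then 0 else g (c (m + t)) (T^[m + t] x)) = _
          rw [if_neg htS, h2, ← Function.iterate_add_apply, add_comm t m]
        rw [h5]
        show ∏ i : Fin n, g (w i) (T^[i] (T^[m] x)) ≤ _
        have h6 := Finset.mul_prod_erase Finset.univ (fun i : Fin n => g (w i) (T^[i] (T^[m] x)))
          (Finset.mem_univ ⟨t, ht⟩)
        rw [← h6]
        exact mul_le_of_le_one_right (hg0 _ _) (Finset.prod_le_one (fun i _ => hg0 _ _) fun i _ => hg1 _ _)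
      exact h4.trans (Finset.single_le_sum (f := fun t => e (m + t)) (fun t _ => he0 _)
        (Finset.mem_range.2 ht))
    · have h1 : st p n m = 0 := if_neg hm
      rw [h1, zero_mul]
      exact Finset.sum_nonneg fun t _ => he0 _
  have hupper : ∑ i ∈ Finset.range N, st p n (a + i) * Φ w (T^[a + i] x) ≤
      n * ((k + 1) * (ε * N)) + 2 * (n : ℝ) ^ 2 := by
    refine (Finset.sum_le_sum fun i _ => hblock (a + i)).trans ?_
    rw [Finset.sum_comm]
    have h1 : ∀ t ∈ Finset.range n, ∑ i ∈ Finset.range N, e (a + i + t) ≤ (k + 1) * (ε * N) + 2 * n := by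
      intro t ht
      have h2 := shift (v := e) (fun m => by rw [abs_of_nonneg (he0 m)]; exact he1 m) a t N
      have h3 := (abs_le.1 h2).2
      have h4 : ∑ i ∈ Finset.range N, e (a + i + t) = ∑ i ∈ Finset.range N, e (a + t + i) :=
        Finset.sum_congr rfl fun i _ => by rw [add_right_comm]
      have h5 : (t : ℝ) ≤ n := by exact_mod_cast (Finset.mem_range.1 ht).le
      rw [h4]
      linarith
    refine (Finset.sum_le_sum h1).trans (le_of_eq ?_)
    rw [Finset.sum_const, Finset.card_range, nsmul_eq_mul]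
    ring
  have hlower : A * (N / (4 * n)) - ε * N ≤ ∑ i ∈ Finset.range N, st p n (a + i) * Φ w (T^[a + i] x) := by
    have h1 := hN₁ N (by omega) a (st p n) (st_nonneg p n) (st_le p n) (st_per p n)
    have h2 := (abs_le.1 h1).1
    simp_rw [mul_sub] at h2
    rw [Finset.sum_sub_distrib, ← Finset.sum_mul, ← hA] at h2
    have h3 := st_sum hn (show n ≤ p by omega) (show p ≤ N by omega) a
    have h4 := mul_le_mul_of_nonneg_right h3 hwpos.le
    linarith
  -- the contradiction
  have hfin : 2 * (n : ℝ) ^ 2 ≤ A / (16 * n) * N := by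
    have h1 : (N₂ : ℝ) ≤ N := by exact_mod_cast (by omega : N₂ ≤ N)
    have h2 := hN₂.trans h1
    rw [div_le_iff₀ hwpos] at h2
    have h3 : A / (16 * n) * N = (N * A) / (16 * n) := by ring
    rw [h3, le_div_iff₀ (by positivity)]
    nlinarith
  have h5 : A * (N / (4 * n)) - ε * N ≤ n * ((k + 1) * (ε * N)) + A / (16 * n) * N := by linarith
  have h6 : A * (N / (4 * n)) ≤ (ε * (1 + n * (k + 1))) * N + A / (16 * n) * N := by linarith
  rw [hεe] at h6
  have h7 : A * (N / (4 * n)) = 4 * (A / (16 * n) * N) := by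
    field_simp
    ring
  have h8 : 0 < A / (16 * n) * N := by positivity
  linarith

end Main

end Pool.Agent.R202.WI
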